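import Pool.Agent.H31.Frank.Inter

/-!
Base polyhedra and the centred polytope of a flag of two matroids.
-/

namespace H31.Frank

open Finset

variable {V : Type*} [Fintype V] [DecidableEq V]

/-- the base polyhedron of a set function -/
def Base (f : Finset V → ℝ) : Set (V → ℝ) :=
  {x | (∀ X, ∑ i ∈ X, x i ≤ f X) ∧ ∑ i, x i = f univ}

/-- the rank of a finite set in a matroid -/
noncomputable def rk (M : Matroid V) (X : Finset V) : ℤ := ((M.eRk (X : Set V)).toNat : ℤ)

theorem eRk_cast (M : Matroid V) (X : Finset V) :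
    M.eRk (X : Set V) = ((M.eRk (X : Set V)).toNat : ℕ∞) := by
  rw [ENat.coe_toNat]
  intro h
  have h1 := M.eRk_le_encard (X : Set V)
  rw [h, top_le_iff, Set.encard_eq_top_iff] at h1
  exact h1 X.finite_toSet

theorem isRk (M : Matroid V) : IsRk (rk M) where
  zero := by simp [rk]
  mono := fun X Y hXY => by
    have h := M.eRk_mono (show (X : Set V) ⊆ Y by exact_mod_cast hXY)
    rw [eRk_cast M X, eRk_cast M Y] at h
    unfold rk
    exact_mod_cast h
  ins := fun e X => by
    have h := M.eRk_insert_le_add_one e (X : Set V)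
    rw [← coe_insert, eRk_cast M X, eRk_cast M (insert e X)] at h
    unfold rk
    exact_mod_cast h
  sub := fun X Y => by
    have h := M.eRk_inter_add_eRk_union_le (X : Set V) (Y : Set V)
    rw [← coe_inter, ← coe_union, eRk_cast M X, eRk_cast M Y, eRk_cast M (X ∩ Y),
      eRk_cast M (X ∪ Y)] at h
    unfold rk
    have h2 : (M.eRk ((X ∩ Y : Finset V) : Set V)).toNat +
        (M.eRk ((X ∪ Y : Finset V) : Set V)).toNat ≤
        (M.eRk (X : Set V)).toNat + (M.eRk (Y : Set V)).toNat := by exact_mod_cast h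
    have h3 : ((M.eRk ((X ∩ Y : Finset V) : Set V)).toNat : ℤ) +
        ((M.eRk ((X ∪ Y : Finset V) : Set V)).toNat : ℤ) ≤
        (M.eRk (X : Set V)).toNat + (M.eRk (Y : Set V)).toNat := by exact_mod_cast h2
    linarith

/-- the centred sum of two matroid rank functions -/
noncomputable def cen (M₁ M₂ : Matroid V) (X : Finset V) : ℝ :=
  (rk M₁ X : ℝ) + (rk M₂ X : ℝ) - X.card

/-- the vector `χ_A - χ_N` -/
def vec (A N : Finset V) : V → ℝ := fun i => (if i ∈ A then 1 else 0) - (if i ∈ N then 1 else 0)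

theorem sum_vec (A N X : Finset V) :
    ∑ i ∈ X, vec A N i = ((X ∩ A).card : ℝ) - ((X ∩ N).card : ℝ) := by
  simp only [vec, sum_sub_distrib]
  congr 1
  · rw [← sum_filter]
    simp [filter_mem_eq_inter]
  · rw [← sum_filter]
    simp [filter_mem_eq_inter]

/-- for disjoint common bases `A`, `N` the vector `χ_A - χ_N` is a vertex -/
theorem vertex {r₁ r₂ : Finset V → ℤ} (h₁ : IsRk r₁) (h₂ : IsRk r₂)
    (hn : r₁ univ + r₂ univ = Fintype.card V) {A N : Finset V} (hd : Disjoint A N)
    (hA : Com r₁ r₂ A) (hN : Com r₁ r₂ N) :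
    vec A N ∈ Set.extremePoints ℝ (Base fun X => (r₁ X : ℝ) + (r₂ X : ℝ) - X.card) := by
  obtain ⟨a1, a2, a3, a4⟩ := hA
  obtain ⟨n1, n2, n3, n4⟩ := hN
  have hcardA : (A.card : ℤ) = r₁ univ := by rw [← a1, a2]
  have hcardN : (N.card : ℤ) = r₁ univ := by rw [← n1, n2]
  have hcs : ∀ X : Finset V, ((Xᶜ).card : ℤ) = Fintype.card V - X.card := fun X => by
    rw [card_compl, Nat.cast_sub (card_le_univ X)]
  -- membership: `x(X) ≤ f(X)`
  have hle : ∀ X : Finset V, ((X ∩ A).card : ℤ) - (X ∩ N).card ≤ r₁ X + r₂ X - X.card := by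
    intro X
    have e1 : ((X ∩ A).card : ℤ) ≤ r₁ X := by
      have h3 := h₁.union_le (X ∩ A) (A \ X)
      have h4 : X ∩ A ∪ A \ X = A := by
        ext x; simp only [mem_union, mem_inter, mem_sdiff]; tauto
      have h5 : ((A \ X).card : ℤ) = A.card - (X ∩ A).card := by
        have h6 := card_sdiff_add_card_inter A X
        rw [inter_comm] at h6
        have h7 : ((A \ X).card : ℤ) + (X ∩ A).card = A.card := by exact_mod_cast h6
        linarith
      rw [h4, a1, h5] at h3
      have h6 := h₁.mono _ _ (inter_subset_left (s₁ := X) (s₂ := A))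
      linarith
    have e2 : ((X \ N).card : ℤ) ≤ r₂ X := by
      have h3 := h₂.union_le (X \ N) (Nᶜ \ X)
      have h4 : X \ N ∪ Nᶜ \ X = Nᶜ := by
        ext x; simp only [mem_union, mem_sdiff, mem_compl]; tauto
      have h5 : ((Nᶜ \ X).card : ℤ) = (Nᶜ).card - (X \ N).card := by
        have h6 := card_sdiff_add_card_inter Nᶜ X
        have h8 : Nᶜ ∩ X = X \ N := by
          ext x; simp only [mem_inter, mem_sdiff, mem_compl]; tauto
        rw [h8] at h6
        have h7 : ((Nᶜ \ X).card : ℤ) + (X \ N).card = (Nᶜ).card := by exact_mod_cast h6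
        linarith
      rw [h4, n3, h5] at h3
      have h6 := h₂.mono _ _ (sdiff_subset (s := X) (t := N))
      linarith
    have e3 : ((X \ N).card : ℤ) = X.card - (X ∩ N).card := by
      have h6 := card_sdiff_add_card_inter X N
      have h7 : ((X \ N).card : ℤ) + (X ∩ N).card = X.card := by exact_mod_cast h6
      linarith
    linarith
  have hmem : vec A N ∈ Base fun X => (r₁ X : ℝ) + (r₂ X : ℝ) - X.card := by
    refine ⟨fun X => ?_, ?_⟩
    · rw [sum_vec]
      show ((X ∩ A).card : ℝ) - (X ∩ N).card ≤ (r₁ X : ℝ) + (r₂ X : ℝ) - X.card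
      have h3 : ((((X ∩ A).card : ℤ) - (X ∩ N).card : ℤ) : ℝ) ≤ ((r₁ X + r₂ X - X.card : ℤ) : ℝ) :=
        Int.cast_le.2 (hle X)
      push_cast at h3
      exact h3
    · rw [sum_vec, univ_inter, univ_inter]
      show (A.card : ℝ) - N.card = (r₁ univ : ℝ) + (r₂ univ : ℝ) - (univ : Finset V).card
      rw [card_univ]
      have h3 : ((A.card : ℤ) : ℝ) - ((N.card : ℤ) : ℝ) =
          ((r₁ univ + r₂ univ - Fintype.card V : ℤ) : ℝ) := by
        rw [hcardA, hcardN, hn]; simp
      push_cast at h3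
      exact h3
  rw [mem_extremePoints]
  refine ⟨hmem, ?_⟩
  -- tight sets
  have htight : ∀ X : Finset V, ((X ∩ A).card : ℤ) - (X ∩ N).card = r₁ X + r₂ X - X.card →
      ∀ y ∈ Base (fun X => (r₁ X : ℝ) + (r₂ X : ℝ) - X.card),
      ∀ z ∈ Base (fun X => (r₁ X : ℝ) + (r₂ X : ℝ) - X.card), vec A N ∈ openSegment ℝ y z →
      ∑ i ∈ X, y i = ∑ i ∈ X, vec A N i ∧ ∑ i ∈ X, z i = ∑ i ∈ X, vec A N i := by
    rintro X hX y hy z hz ⟨p, q, hp, hq, hpq, hseg⟩
    have e1 := hy.1 X
    have e2 := hz.1 X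
    have e3 : ∑ i ∈ X, vec A N i = (r₁ X : ℝ) + (r₂ X : ℝ) - X.card := by
      rw [sum_vec]; exact_mod_cast hX
    have e4 : p * ∑ i ∈ X, y i + q * ∑ i ∈ X, z i = ∑ i ∈ X, vec A N i := by
      rw [← hseg, mul_sum, mul_sum, ← sum_add_distrib]
      rfl
    rw [e3] at e4 ⊢
    have e1' : 0 ≤ ((r₁ X : ℝ) + (r₂ X : ℝ) - X.card) - ∑ i ∈ X, y i := sub_nonneg.2 e1
    have e2' : 0 ≤ ((r₁ X : ℝ) + (r₂ X : ℝ) - X.card) - ∑ i ∈ X, z i := sub_nonneg.2 e2
    have e5 : p * (((r₁ X : ℝ) + (r₂ X : ℝ) - X.card) - ∑ i ∈ X, y i) +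
        q * (((r₁ X : ℝ) + (r₂ X : ℝ) - X.card) - ∑ i ∈ X, z i) = 0 := by
      linear_combination ((r₁ X : ℝ) + (r₂ X : ℝ) - X.card) * hpq - e4
    have e6 := mul_nonneg hp.le e1'
    have e7 := mul_nonneg hq.le e2'
    constructor
    · have e8 := (mul_eq_zero.1 (le_antisymm (by linarith) e6)).resolve_left hp.ne'
      linarith
    · have e8 := (mul_eq_zero.1 (le_antisymm (by linarith) e7)).resolve_left hq.ne'
      linarith
  have hsub1 : ∀ X, X ⊆ A → r₁ X = X.card := by
    intro X hX
    have h3 := h₁.union_le X (A \ X)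
    rw [union_sdiff_of_subset hX, a1, card_sdiff_of_subset hX, Nat.cast_sub (card_le_card hX)] at h3
    have := h₁.le_card X
    linarith
  have hsub2 : ∀ X, X ⊆ Nᶜ → r₂ X = X.card := by
    intro X hX
    have h3 := h₂.union_le X (Nᶜ \ X)
    rw [union_sdiff_of_subset hX, n3, card_sdiff_of_subset hX, Nat.cast_sub (card_le_card hX)] at h3
    have := h₂.le_card X
    linarith
  have hAN : A ⊆ Nᶜ := fun x hx => mem_compl.2 fun hx2 => (disjoint_left.1 hd) hx hx2
  have hNA : N ⊆ Aᶜ := fun x hx => mem_compl.2 fun hx2 => (disjoint_left.1 hd) hx2 hx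
  have hkey : ∀ y, y ∈ Base (fun X => (r₁ X : ℝ) + (r₂ X : ℝ) - X.card) →
      (∀ X : Finset V, ((X ∩ A).card : ℤ) - (X ∩ N).card = r₁ X + r₂ X - X.card →
        ∑ i ∈ X, y i = ∑ i ∈ X, vec A N i) → y = vec A N := by
    intro y _ hy
    -- elements of `A`
    have hyA : ∀ i ∈ A, y i = vec A N i := by
      intro i hi
      have hi2 : ({i} : Finset V) ⊆ A := singleton_subset_iff.2 hi
      have h3 := hy {i} (by
        rw [hsub1 _ hi2, hsub2 _ (hi2.trans hAN), inter_eq_left.2 hi2,
          (disjoint_iff_inter_eq_empty.1 (hd.mono_left hi2)), card_empty]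
        push_cast; ring)
      simpa using h3
    have hsA : ∑ i ∈ A, y i = ∑ i ∈ A, vec A N i := sum_congr rfl hyA
    have hyZ : ∀ i, i ∉ A → i ∉ N → y i = vec A N i := by
      intro i hiA hiN
      have hsub : insert i A ⊆ Nᶜ := insert_subset (mem_compl.2 hiN) hAN
      have h3 := hy (insert i A) (by
        have h4 : r₁ (insert i A) = r₁ univ := le_antisymm (h₁.mono _ _ (subset_univ _))
          (by rw [← a2]; exact h₁.mono _ _ (subset_insert _ _))
        have h5 : insert i A ∩ N = ∅ := by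
          rw [← disjoint_iff_inter_eq_empty, disjoint_insert_left]
          exact ⟨hiN, hd⟩
        rw [hsub2 _ hsub, h4, h5, inter_eq_right.2 (subset_insert i A), hcardA, card_empty]
        push_cast; ring)
      rw [sum_insert hiA, sum_insert hiA, hsA] at h3
      linarith
    have hyN : ∀ i ∈ N, y i = vec A N i := by
      intro i hi
      have h4 : ∀ W : Finset V, Nᶜ ⊆ W → ((W ∩ A).card : ℤ) - (W ∩ N).card = r₁ W + r₂ W - W.card := by
        intro W hW
        have f1 : r₁ W = r₁ univ := le_antisymm (h₁.mono _ _ (subset_univ _))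
          (by rw [← a2]; exact h₁.mono _ _ (hAN.trans hW))
        have f2 : r₂ W = r₂ univ := le_antisymm (h₂.mono _ _ (subset_univ _))
          (by rw [← n4]; exact h₂.mono _ _ hW)
        have f3 : W ∩ A = A := inter_eq_right.2 (hAN.trans hW)
        have f4 : (W.card : ℤ) = (Nᶜ).card + (W ∩ N).card := by
          have f5 := card_sdiff_add_card_inter W N
          have f6 : W \ N = Nᶜ := by
            ext x
            simp only [mem_sdiff, mem_compl]
            exact ⟨fun h5 => h5.2, fun h5 => ⟨hW (mem_compl.2 h5), h5⟩⟩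
          rw [f6] at f5
          exact_mod_cast f5.symm
        rw [f1, f2, f3, f4, hcs N, hcardA, hcardN]
        linarith
      have h5 := hy Nᶜ (h4 _ (Finset.Subset.refl _))
      have h6 := hy (insert i Nᶜ) (h4 _ (subset_insert _ _))
      have h7 : i ∉ Nᶜ := fun h8 => mem_compl.1 h8 hi
      rw [sum_insert h7, sum_insert h7, h5] at h6
      linarith
    funext i
    by_cases hiA : i ∈ A
    · exact hyA i hiA
    by_cases hiN : i ∈ N
    · exact hyN i hiN
    exact hyZ i hiA hiN
  intro y hy z hz hseg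
  exact ⟨hkey y hy fun X hX => (htight X hX y hy z hz hseg).1,
    hkey z hz fun X hX => (htight X hX y hy z hz hseg).2⟩

theorem neg_vec (A N : Finset V) : -vec A N = vec N A := by
  funext i
  simp [vec]

/-- `A` is a base of `M₁` and its complement is a base of `M₂` -/
theorem com_iff (M₁ M₂ : Matroid V) (hE₁ : M₁.E = Set.univ) (hE₂ : M₂.E = Set.univ) (A : Finset V) :
    Com (rk M₁) (rk M₂) A ↔ M₁.IsBase (A : Set V) ∧ M₂.IsBase ((A : Set V)ᶜ) := by
  have key : ∀ (M : Matroid V), M.E = Set.univ → ∀ B : Finset V,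
      (rk M B = B.card ∧ rk M B = rk M univ) ↔ M.IsBase (B : Set V) := by
    intro M hE B
    have hfin : M.RankFinite := by
      have : M.Finite := ⟨Set.toFinite _⟩
      infer_instance
    have hu : M.eRk ((univ : Finset V) : Set V) = M.eRank := by
      rw [coe_univ, ← hE, M.eRk_ground]
    constructor
    · rintro ⟨h1, h2⟩
      have h3 : M.Indep (B : Set V) := by
        rw [M.indep_iff_eRk_eq_encard_of_finite B.finite_toSet, eRk_cast,
          Set.encard_coe_eq_coe_finsetCard]
        unfold rk at h1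
        exact_mod_cast h1
      apply h3.isBase_of_eRk_ge
      · exact B.finite_toSet
      · rw [← hu, eRk_cast M univ, eRk_cast M B]
        unfold rk at h2
        exact_mod_cast h2.symm.le
    · intro h1
      have h2 := h1.eRk_eq_eRank
      have h3 := h1.indep.eRk_eq_encard
      rw [Set.encard_coe_eq_coe_finsetCard, eRk_cast] at h3
      rw [← hu, eRk_cast M B, eRk_cast M univ] at h2
      unfold rk
      exact ⟨by exact_mod_cast h3, by exact_mod_cast h2⟩
  unfold Com
  rw [← key M₁ hE₁, ← coe_compl, ← key M₂ hE₂]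
  tauto

end H31.Frank
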