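import Mathlib

/-!
Rank functions on finite sets and the matroid intersection theorem.
-/

namespace H31.Frank

open Finset

variable {V : Type*} [DecidableEq V]

/-- the axioms of matroid rank functions -/
structure IsRk (r : Finset V → ℤ) : Prop where
  zero : r ∅ = 0
  mono : ∀ X Y, X ⊆ Y → r X ≤ r Y
  ins : ∀ e X, r (insert e X) ≤ r X + 1
  sub : ∀ X Y, r (X ∪ Y) + r (X ∩ Y) ≤ r X + r Y

theorem IsRk.nonneg {r : Finset V → ℤ} (h : IsRk r) (X : Finset V) : 0 ≤ r X := by
  rw [← h.zero]; exact h.mono _ _ (empty_subset _)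

theorem IsRk.union_le {r : Finset V → ℤ} (h : IsRk r) (X W : Finset V) :
    r (X ∪ W) ≤ r X + W.card := by
  induction W using Finset.induction_on with
  | empty => simp
  | insert a W ha ih =>
    rw [union_insert, card_insert_of_notMem ha]
    have := h.ins a (X ∪ W)
    push_cast
    linarith

theorem IsRk.le_card {r : Finset V → ℤ} (h : IsRk r) (X : Finset V) : r X ≤ X.card := by
  have := h.union_le ∅ X
  rw [empty_union, h.zero] at this
  linarith

theorem IsRk.loops {r : Finset V → ℤ} (h : IsRk r) (X : Finset V)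
    (hX : ∀ e ∈ X, r {e} = 0) : r X = 0 := by
  induction X using Finset.induction_on with
  | empty => exact h.zero
  | insert a X ha ih =>
    have h1 := ih fun e he => hX e (mem_insert_of_mem he)
    have h2 := h.sub {a} X
    rw [hX a (mem_insert_self a X), h1, ← insert_eq] at h2
    have h3 := h.nonneg ({a} ∩ X)
    have h4 := h.nonneg (insert a X)
    linarith

theorem IsRk.contract {r : Finset V → ℤ} (h : IsRk r) {e : V} (he : r {e} = 1) :
    IsRk fun X => r (insert e X) - 1 where
  zero := by rw [insert_empty_eq, he]; norm_num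
  mono := fun X Y hXY => by
    have := h.mono _ _ (insert_subset_insert e hXY)
    linarith
  ins := fun f X => by
    have := h.ins f (insert e X)
    have h2 : insert f (insert e X) = insert e (insert f X) := by ext x; simp only [mem_insert]; tauto
    rw [h2] at this
    linarith
  sub := fun X Y => by
    have h1 := h.sub (insert e X) (insert e Y)
    rw [← insert_union_distrib, ← insert_inter_distrib] at h1
    linarith

/-- **Matroid intersection.** -/
theorem inter (E : Finset V) : ∀ (r₁ r₂ : Finset V → ℤ), IsRk r₁ → IsRk r₂ → ∀ k : ℕ,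
    (∀ X ⊆ E, (k : ℤ) ≤ r₁ X + r₂ (E \ X)) →
    ∃ I ⊆ E, I.card = k ∧ r₁ I = k ∧ r₂ I = k := by
  induction E using Finset.strongInduction with
  | H E ih =>
    intro r₁ r₂ h₁ h₂ k hk
    rcases Nat.eq_zero_or_pos k with rfl | hk0
    · exact ⟨∅, empty_subset _, card_empty, by simpa using h₁.zero, by simpa using h₂.zero⟩
    have hex : ∃ e ∈ E, r₁ {e} = 1 ∧ r₂ {e} = 1 := by
      by_contra hcon
      push Not at hcon
      have h01 : ∀ (r : Finset V → ℤ), IsRk r → ∀ e, r {e} = 0 ∨ r {e} = 1 := by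
        intro r hr e
        have h3 := hr.nonneg {e}
        have h4 := hr.le_card {e}
        rw [card_singleton] at h4
        push_cast at h4
        omega
      have h3 := hk (E.filter fun e => r₁ {e} = 0) (filter_subset _ _)
      rw [h₁.loops _ fun e he => (mem_filter.1 he).2, h₂.loops _ fun e he => ?_] at h3
      · have : (0 : ℤ) < k := by exact_mod_cast hk0
        linarith
      · rw [mem_sdiff, mem_filter] at he
        have h4 : r₁ {e} = 1 := (h01 r₁ h₁ e).resolve_left fun h5 => he.2 ⟨he.1, h5⟩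
        exact (h01 r₂ h₂ e).resolve_right (hcon e he.1 h4)
    obtain ⟨e, heE, he1, he2⟩ := hex
    have hlt : E.erase e ⊂ E := erase_ssubset heE
    by_cases hdel : ∀ X ⊆ E.erase e, (k : ℤ) ≤ r₁ X + r₂ (E.erase e \ X)
    · obtain ⟨I, hI, h3⟩ := ih _ hlt r₁ r₂ h₁ h₂ k hdel
      exact ⟨I, hI.trans (erase_subset _ _), h3⟩
    push Not at hdel
    obtain ⟨X, hX, hXk⟩ := hdel
    have hcon : ∀ Y ⊆ E.erase e, ((k - 1 : ℕ) : ℤ) ≤
        (r₁ (insert e Y) - 1) + (r₂ (insert e (E.erase e \ Y)) - 1) := by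
      intro Y hY
      by_contra hlt2
      push Not at hlt2
      have heX : e ∉ X := fun h => notMem_erase e E (hX h)
      have heY : e ∉ Y := fun h => notMem_erase e E (hY h)
      have hYE : Y ⊆ E := hY.trans (erase_subset _ _)
      have hXE : X ⊆ E := hX.trans (erase_subset _ _)
      have e1 : insert e (E.erase e \ Y) = E \ Y := by
        ext x
        simp only [mem_insert, mem_sdiff, mem_erase]
        constructor
        · rintro (rfl | ⟨⟨_, h3⟩, h4⟩)
          · exact ⟨heE, heY⟩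
          · exact ⟨h3, h4⟩
        · rintro ⟨h3, h4⟩
          by_cases hx : x = e
          · exact Or.inl hx
          · exact Or.inr ⟨⟨hx, h3⟩, h4⟩
      rw [e1] at hlt2
      have s1 := h₁.sub X (insert e Y)
      have s2 := h₂.sub (E.erase e \ X) (E \ Y)
      have e2 : X ∩ insert e Y = X ∩ Y := by
        ext x
        simp only [mem_inter, mem_insert]
        constructor
        · rintro ⟨h3, rfl | h4⟩
          · exact absurd h3 heX
          · exact ⟨h3, h4⟩
        · rintro ⟨h3, h4⟩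
          exact ⟨h3, Or.inr h4⟩
      have e3 : (E.erase e \ X) ∪ (E \ Y) = E \ (X ∩ Y) := by
        ext x
        simp only [mem_union, mem_sdiff, mem_erase, mem_inter]
        constructor
        · rintro (⟨⟨_, h3⟩, h4⟩ | ⟨h3, h4⟩)
          · exact ⟨h3, fun h5 => h4 h5.1⟩
          · exact ⟨h3, fun h5 => h4 h5.2⟩
        · rintro ⟨h3, h4⟩
          by_cases hx : x ∈ Y
          · left
            refine ⟨⟨?_, h3⟩, fun h5 => h4 ⟨h5, hx⟩⟩
            rintro rfl; exact heY hx
          · exact Or.inr ⟨h3, hx⟩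
      have e4 : (E.erase e \ X) ∩ (E \ Y) = E \ (X ∪ insert e Y) := by
        ext x
        simp only [mem_inter, mem_sdiff, mem_erase, mem_union, mem_insert]
        tauto
      rw [e2] at s1
      rw [e3, e4] at s2
      have k1 := hk (X ∩ Y) (inter_subset_left.trans hXE)
      have k2 := hk (X ∪ insert e Y) (union_subset hXE (insert_subset heE hYE))
      have hkk : ((k - 1 : ℕ) : ℤ) = (k : ℤ) - 1 := by
        rw [Nat.cast_sub hk0]; norm_num
      rw [hkk] at hlt2
      linarith
    obtain ⟨I, hI, hc, h3, h4⟩ := ih _ hlt (fun Y => r₁ (insert e Y) - 1)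
      (fun Y => r₂ (insert e Y) - 1) (h₁.contract he1) (h₂.contract he2) (k - 1) hcon
    have heI : e ∉ I := fun h => notMem_erase e E (hI h)
    have hkk : ((k - 1 : ℕ) : ℤ) = (k : ℤ) - 1 := by
      rw [Nat.cast_sub hk0]; norm_num
    refine ⟨insert e I, insert_subset heE (hI.trans (erase_subset _ _)), ?_, ?_, ?_⟩
    · rw [card_insert_of_notMem heI, hc]; omega
    · linarith
    · linarith

variable [Fintype V]

/-- the dual rank function -/
theorem IsRk.dual {r : Finset V → ℤ} (h : IsRk r) :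
    IsRk fun X => (X.card : ℤ) - r univ + r Xᶜ where
  zero := by simp
  mono := fun X Y hXY => by
    have h1 := h.union_le Yᶜ (Y \ X)
    have h2 : Yᶜ ∪ (Y \ X) = Xᶜ := by
      ext x
      simp only [mem_union, mem_compl, mem_sdiff]
      constructor
      · rintro (h3 | h3)
        · exact fun h4 => h3 (hXY h4)
        · exact h3.2
      · intro h3
        by_cases h4 : x ∈ Y
        · exact Or.inr ⟨h4, h3⟩
        · exact Or.inl h4
    rw [h2] at h1
    have h3 : ((Y \ X).card : ℤ) = Y.card - X.card := by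
      rw [card_sdiff_of_subset hXY, Nat.cast_sub (card_le_card hXY)]
    rw [h3] at h1
    show (X.card : ℤ) - r univ + r Xᶜ ≤ Y.card - r univ + r Yᶜ
    linarith
  ins := fun e X => by
    show ((insert e X).card : ℤ) - r univ + r (insert e X)ᶜ ≤ X.card - r univ + r Xᶜ + 1
    have h1 : r (insert e X)ᶜ ≤ r Xᶜ := h.mono _ _ (compl_subset_compl.2 (subset_insert _ _))
    have h2 : (insert e X).card ≤ X.card + 1 := card_insert_le _ _
    have h3 : ((insert e X).card : ℤ) ≤ X.card + 1 := by exact_mod_cast h2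
    linarith
  sub := fun X Y => by
    show ((X ∪ Y).card : ℤ) - r univ + r (X ∪ Y)ᶜ + ((X ∩ Y).card - r univ + r (X ∩ Y)ᶜ) ≤
      (X.card - r univ + r Xᶜ) + (Y.card - r univ + r Yᶜ)
    have h1 := h.sub Xᶜ Yᶜ
    have h2 : ((X ∪ Y).card : ℤ) + (X ∩ Y).card = X.card + Y.card := by
      exact_mod_cast card_union_add_card_inter X Y
    rw [← compl_inter, ← compl_union] at h1
    linarith

/-- common bases of the first matroid and of the dual of the second one -/
def Com (r₁ r₂ : Finset V → ℤ) (A : Finset V) : Prop :=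
  r₁ A = A.card ∧ r₁ A = r₁ univ ∧ r₂ Aᶜ = (Aᶜ).card ∧ r₂ Aᶜ = r₂ univ

theorem com_of {r₁ r₂ : Finset V → ℤ} (hn : r₁ univ + r₂ univ = Fintype.card V) {k : ℕ}
    (hk : r₁ univ = k) {A : Finset V} (hc : A.card = k) (h1 : r₁ A = k)
    (h2 : (A.card : ℤ) - r₂ univ + r₂ Aᶜ = k) : Com r₁ r₂ A := by
  have h3 : ((Aᶜ).card : ℤ) = Fintype.card V - A.card := by
    rw [card_compl, Nat.cast_sub (card_le_univ A)]
  rw [hc] at h2 h3
  refine ⟨by rw [h1, hc], by rw [h1, hk], ?_, ?_⟩
  · rw [h3]; linarith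
  · linarith

theorem exists_com {r₁ r₂ : Finset V → ℤ} (h₁ : IsRk r₁) (h₂ : IsRk r₂)
    (hn : r₁ univ + r₂ univ = Fintype.card V) (hf : ∀ X : Finset V, (X.card : ℤ) ≤ r₁ X + r₂ X) :
    ∃ A, Com r₁ r₂ A := by
  obtain ⟨k, hk⟩ : ∃ k : ℕ, r₁ univ = k := ⟨(r₁ univ).toNat, (Int.toNat_of_nonneg (h₁.nonneg _)).symm⟩
  obtain ⟨A, _, hc, h1, h2⟩ := inter univ r₁ (fun X => (X.card : ℤ) - r₂ univ + r₂ Xᶜ) h₁ h₂.dual k (by
    intro X _
    rw [← compl_eq_univ_sdiff, compl_compl]
    have h3 : ((Xᶜ).card : ℤ) = Fintype.card V - X.card := by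
      rw [card_compl, Nat.cast_sub (card_le_univ X)]
    have := hf X
    rw [h3]
    linarith)
  exact ⟨A, com_of hn hk hc h1 h2⟩

/-- the second common base -/
theorem exists_disjoint_com {r₁ r₂ : Finset V → ℤ} (h₁ : IsRk r₁) (h₂ : IsRk r₂)
    (hn : r₁ univ + r₂ univ = Fintype.card V)
    (hq : ∀ X Y, X ⊆ Y → r₁ Y - r₁ X ≤ r₂ Y - r₂ X) {A : Finset V} (hA : Com r₁ r₂ A) :
    ∃ N, Disjoint A N ∧ Com r₁ r₂ N := by
  obtain ⟨a1, a2, a3, a4⟩ := hA
  obtain ⟨k, hk⟩ : ∃ k : ℕ, r₁ univ = k := ⟨(r₁ univ).toNat, (Int.toNat_of_nonneg (h₁.nonneg _)).symm⟩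
  obtain ⟨N, hN, hc, h1, h2⟩ := inter Aᶜ r₁ (fun X => (X.card : ℤ) - r₂ univ + r₂ Xᶜ) h₁ h₂.dual k (by
    intro X hX
    -- `X` is independent for the second matroid
    have hind : r₂ X = X.card := by
      have e1 := h₂.union_le X (Aᶜ \ X)
      rw [union_sdiff_of_subset hX, a3, card_sdiff_of_subset hX,
        Nat.cast_sub (card_le_card hX)] at e1
      have e2 := h₂.le_card X
      linarith
    have hc1 : (Aᶜ \ X)ᶜ = A ∪ X := by
      ext x
      simp only [mem_compl, mem_sdiff, mem_union]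
      tauto
    have hd : Disjoint A X := disjoint_left.2 fun x hx hx2 => (mem_compl.1 (hX hx2)) hx
    have hcard : (((Aᶜ \ X).card : ℕ) : ℤ) = Fintype.card V - A.card - X.card := by
      rw [card_sdiff_of_subset hX, Nat.cast_sub (card_le_card hX), card_compl,
        Nat.cast_sub (card_le_univ A)]
    have e3 := hq X (A ∪ X) subset_union_right
    have e4 : r₁ univ ≤ r₁ (A ∪ X) := by
      rw [← a2]; exact h₁.mono _ _ subset_union_left
    show (k : ℤ) ≤ r₁ X + (((Aᶜ \ X).card : ℤ) - r₂ univ + r₂ (Aᶜ \ X)ᶜ)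
    rw [hc1, hcard]
    rw [hind] at e3
    linarith)
  refine ⟨N, disjoint_left.2 fun x hx hx2 => (mem_compl.1 (hN hx2)) hx, com_of hn hk hc h1 h2⟩

end H31.Frank
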